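import Pool.Agent.Helper879.SS.Asm

/-!
Surjective span zero versus span zero: an inequality for symmetric witnesses valid for every
continuum, and a reduction to buried indecomposable subcontinua which are not limits of trees with
simplicial bonding maps.
-/

set_option autoImplicit false

namespace Pool.Agent.Results.MP_8493f1_gt.Assembly

open Set

/-- The surjective span of `X`: the supremum of all `a ≥ 0` for which some connected subset `C` of
the square of `X` with both projections onto `X` satisfies `a ≤ dist x y` for all `(x, y) ∈ C`. -/
noncomputable def surjSpan (X : Type) [MetricSpace X] : ℝ :=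
  sSup {a : ℝ | 0 ≤ a ∧ ∃ C : Set (X × X), IsConnected C ∧ Prod.fst '' C = univ ∧
    Prod.snd '' C = univ ∧ ∀ p ∈ C, a ≤ dist p.1 p.2}

/-- The subset `N` of `X` has surjective span zero: every connected subset of the square of `X`
whose two projections are both equal to `N` contains pairs at arbitrarily small distance. -/
def SurjSpanZeroOn {X : Type} [MetricSpace X] (N : Set X) : Prop :=
  ∀ C : Set (X × X), IsConnected C → Prod.fst '' C = N → Prod.snd '' C = N →
    ∀ ε : ℝ, 0 < ε → ∃ p ∈ C, dist p.1 p.2 < ε

/-- `X` has span zero: every connected subset of the square of `X` whose two projections are equal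
contains pairs at arbitrarily small distance. -/
def SpanZero (X : Type) [MetricSpace X] : Prop :=
  ∀ C : Set (X × X), IsConnected C → Prod.fst '' C = Prod.snd '' C →
    ∀ ε : ℝ, 0 < ε → ∃ p ∈ C, dist p.1 p.2 < ε

/-- `N` is a subcontinuum: nonempty, closed and connected. -/
def Subcontinuum {X : Type} [MetricSpace X] (N : Set X) : Prop := IsClosed N ∧ IsConnected N

/-- `N` is indecomposable: it is not the union of two proper subcontinua. -/
def Indecomposable {X : Type} [MetricSpace X] (N : Set X) : Prop :=
  ∀ A B : Set X, Subcontinuum A → Subcontinuum B → A ∪ B = N → A = N ∨ B = N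

/-- `N` is buried in `X`: it is nowhere dense, and every subcontinuum of `X` that meets `N` and
does not contain `N` is nowhere dense. -/
def Buried {X : Type} [MetricSpace X] (N : Set X) : Prop :=
  interior N = ∅ ∧
    ∀ L : Set X, Subcontinuum L → (L ∩ N).Nonempty → ¬ N ⊆ L → interior L = ∅

/-- The realisation of a finite acyclic graph `G`: barycentric coordinates whose support is a vertex
or an edge. -/
def geo {V : Type} [Fintype V] (G : SimpleGraph V) : Set (V → ℝ) :=
  {x | (∀ v, 0 ≤ x v) ∧ ∑ v, x v = 1 ∧ ∀ u v, x u ≠ 0 → x v ≠ 0 → u = v ∨ G.Adj u v}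

open Classical in
/-- The affine extension of a map `F` of the vertices. -/
noncomputable def push {V W : Type} [Fintype V] (F : V → W) (x : V → ℝ) (w : W) : ℝ :=
  ∑ v, if F v = w then x v else 0

/-- `Y` embeds in the inverse limit of finite acyclic graphs with simplicial bonding maps: there are
continuous maps `p n` of `Y` to the realisations of finite acyclic graphs `G n`, commuting with the
affine extensions of vertex maps `F n` which send edges to edges or vertices, and separating the
points of `Y`. -/
def SimplicialTreeLimit (Y : Type) [TopologicalSpace Y] : Prop :=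
  ∃ (V : ℕ → Type) (_ : ∀ n, Fintype (V n)) (G : ∀ n, SimpleGraph (V n))
    (F : ∀ n, V (n + 1) → V n) (p : ∀ n, Y → V n → ℝ),
    (∀ n, (G n).IsAcyclic) ∧
    (∀ n u v, (G (n + 1)).Adj u v → F n u = F n v ∨ (G n).Adj (F n u) (F n v)) ∧
    (∀ n, Continuous (p n)) ∧ (∀ n x, p n x ∈ geo (G n)) ∧
    (∀ n x, push (F n) (p (n + 1) x) = p n x) ∧
    ∀ x y, (∀ n, p n x = p n y) → x = y

theorem limit_restrict {X : Type} [MetricSpace X] (h : SimplicialTreeLimit X) (N : Set X) :
    SimplicialTreeLimit N := by
  obtain ⟨V, i, G, F, p, hG, hF, hp, hgeo, hpush, hsep⟩ := h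
  exact ⟨V, i, G, F, fun n x => p n x.1, hG, hF, fun n => (hp n).comp continuous_subtype_val,
    fun n x => hgeo n x.1, fun n x => hpush n x.1,
    fun x y hxy => Subtype.val_injective (hsep _ _ hxy)⟩

theorem refinable {Y : Type} [MetricSpace Y] [CompactSpace Y] (h : SimplicialTreeLimit Y) :
    Pool.Agent.Helper879.ET.ExactTreeRefinable Y := by
  obtain ⟨V, _, G, F, p, hG, hF, hp, hgeo, hpush, hsep⟩ := h
  exact Pool.Agent.Helper879.ET.limit_refinable V G F p hG hF hp hgeo hpush hsep

theorem part_two {X : Type} [MetricSpace X] [CompactSpace X] [ConnectedSpace X]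
    (h : SurjSpanZeroOn (univ : Set X))
    (hN : ∀ N : Set X, Subcontinuum N → N.Nontrivial → Indecomposable N → Buried N →
        SurjSpanZeroOn N ∨ SimplicialTreeLimit N) : SpanZero X :=
  Pool.Agent.Helper879.Asm.part_two h fun N hNc hnt hi hb =>
    (hN N hNc hnt hi hb).imp id fun hs => by
      have : CompactSpace N := isCompact_iff_compactSpace.1 hNc.1.isCompact
      exact refinable hs

/-- (1) For every continuum `X`, a connected subset of the square containing a pair and its
transpose has distance from the diagonal at most twice the surjective span. (2) If `X` has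
surjective span zero and every nondegenerate buried indecomposable subcontinuum of `X` has
surjective span zero or embeds in an inverse limit of finite acyclic graphs with simplicial bonding
maps, then `X` has span zero. (3) Surjective span zero implies span zero for every continuum which
embeds in an inverse limit of finite acyclic graphs with simplicial bonding maps. -/
theorem result {X : Type} [MetricSpace X] [CompactSpace X] [ConnectedSpace X] :
    (∀ C : Set (X × X), IsConnected C → (∃ x y : X, (x, y) ∈ C ∧ (y, x) ∈ C) →
      ∀ a : ℝ, (∀ p ∈ C, a ≤ dist p.1 p.2) → a ≤ 2 * surjSpan X) ∧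
    (SurjSpanZeroOn (univ : Set X) →
      (∀ N : Set X, Subcontinuum N → N.Nontrivial → Indecomposable N → Buried N →
        SurjSpanZeroOn N ∨ SimplicialTreeLimit N) → SpanZero X) ∧
    (SimplicialTreeLimit X → SurjSpanZeroOn (univ : Set X) → SpanZero X) :=
  ⟨Pool.Agent.Helper879.Asm.le_two, part_two,
    fun hX h => part_two h fun N _ _ _ _ => Or.inr (limit_restrict hX N)⟩

end Pool.Agent.Results.MP_8493f1_gt.Assembly
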