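import Mathlib
import Pool.Agent.Helper879.SS.Cont
import Pool.Agent.Helper885.ExactTree.Core

set_option autoImplicit false

namespace Pool.Agent.Results.MP_8493f1_gt.ExactRefinements

open Pool.Agent.Helper885.ExRef

/-- the positive answer for continua with exact tree refinements -/
theorem main_refinable (X : Type) [MetricSpace X] [CompactSpace X] [ConnectedSpace X]
    (hX : ExactTreeRefinable X)
    (h : ∀ C : Set (X × X), IsConnected C →
      Prod.fst '' C = Set.univ → Prod.snd '' C = Set.univ →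
      ∀ ε : ℝ, 0 < ε → ∃ p ∈ C, dist p.1 p.2 < ε)
    (C : Set (X × X)) (hC : IsConnected C) (hpr : Prod.fst '' C = Prod.snd '' C)
    (ε : ℝ) (hε : 0 < ε) : ∃ p ∈ C, dist p.1 p.2 < ε := by
  have hD : ∀ (A B : X) (K : Set (X × X)), IsCompact K → IsConnected K → (A, B) ∈ K →
      (B, A) ∈ K → ∃ x : X, (x, x) ∈ K := by
    intro A B K hK hKc hAB hBA
    have h1 := fun (δ : ℝ) (hδ : 0 < δ) => Pool.Agent.Helper879.SS.main
      (fun C hC h1 h2 ε hε => h C hC h1 h2 ε hε) K hKc.isPreconnected A B hAB hBA δ hδ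
    obtain ⟨q, hq, hmin⟩ := hK.exists_isMinOn ⟨_, hAB⟩ (continuous_dist (α := X)).continuousOn
    have hq0 : q.1 = q.2 := by
      by_contra hne
      obtain ⟨r, hr, hr'⟩ := h1 (dist q.1 q.2) (dist_pos.2 hne)
      exact absurd (isMinOn_iff.1 hmin r hr) (not_le.2 hr')
    refine ⟨q.1, ?_⟩
    have : q = (q.1, q.1) := Prod.ext rfl hq0.symm
    rw [← this]
    exact hq
  have hcl : IsCompact (closure C) := isClosed_closure.isCompact
  have hproj : Prod.snd '' (closure C) ⊆ Prod.fst '' (closure C) := by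
    have hc : IsClosed (Prod.fst '' (closure C)) := (hcl.image continuous_fst).isClosed
    have h1 : Prod.snd '' (closure C) ⊆ closure (Prod.snd '' C) :=
      image_closure_subset_closure_image continuous_snd
    refine h1.trans (closure_minimal ?_ hc)
    rw [← hpr]
    exact Set.image_mono subset_closure
  obtain ⟨x, hx⟩ := refinable_span hX hD (closure C) hcl hC.closure hproj
  rw [Metric.mem_closure_iff] at hx
  obtain ⟨p, hp, hpx⟩ := hx (ε / 2) (by linarith)
  refine ⟨p, hp, ?_⟩
  rw [Prod.dist_eq, max_lt_iff] at hpx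
  calc dist p.1 p.2 ≤ dist p.1 x + dist x p.2 := dist_triangle _ _ _
    _ < ε := by
      rw [dist_comm p.1 x]
      linarith [hpx.1, hpx.2]

/-- Surjective span zero implies span zero for every continuum with exact tree refinements, and for
every continuum that embeds in an inverse limit of finite trees with simplicial bonding maps. -/
theorem result :
    (∀ (X : Type) [MetricSpace X] [CompactSpace X] [ConnectedSpace X],
      ExactTreeRefinable X →
      (∀ C : Set (X × X), IsConnected C →
          Prod.fst '' C = Set.univ → Prod.snd '' C = Set.univ →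
          ∀ ε : ℝ, 0 < ε → ∃ p ∈ C, dist p.1 p.2 < ε) →
      (∀ C : Set (X × X), IsConnected C →
          Prod.fst '' C = Prod.snd '' C →
          ∀ ε : ℝ, 0 < ε → ∃ p ∈ C, dist p.1 p.2 < ε)) ∧
    (∀ (X : Type) [MetricSpace X] [CompactSpace X] [ConnectedSpace X]
      (V : ℕ → Type) [∀ n, Fintype (V n)] (G : ∀ n, SimpleGraph (V n))
      (F : ∀ n, V (n + 1) → V n) (p : ∀ n, X → V n → ℝ),
      (∀ n, (G n).IsTree) →
      (∀ n u v, (G (n + 1)).Adj u v → F n u = F n v ∨ (G n).Adj (F n u) (F n v)) →
      (∀ n, Continuous (p n)) →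
      (∀ n x, p n x ∈ geo (G n)) →
      (∀ n x, push (F n) (p (n + 1) x) = p n x) →
      (∀ x y, (∀ n, p n x = p n y) → x = y) →
      (∀ C : Set (X × X), IsConnected C →
          Prod.fst '' C = Set.univ → Prod.snd '' C = Set.univ →
          ∀ ε : ℝ, 0 < ε → ∃ p ∈ C, dist p.1 p.2 < ε) →
      (∀ C : Set (X × X), IsConnected C →
          Prod.fst '' C = Prod.snd '' C →
          ∀ ε : ℝ, 0 < ε → ∃ p ∈ C, dist p.1 p.2 < ε)) := by
  refine ⟨?_, ?_⟩
  · intro X _ _ _ hX h C hC hpr ε hε
    exact main_refinable X hX h C hC hpr ε hε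
  · intro X _ _ _ V _ G F p hG hF hp hgeo hpush hsep h C hC hpr ε hε
    exact main_refinable X
      (limit_refinable V G F p (fun n => (hG n).isAcyclic) hF hp hgeo hpush hsep) h C hC hpr ε hε

end Pool.Agent.Results.MP_8493f1_gt.ExactRefinements
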