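import Mathlib
import Pool.Agent.Helper879.SS.Cont
import Pool.Agent.Helper885.ExactTree.Necks

set_option autoImplicit false

namespace Pool.Agent.Results.MP_8493f1_gt.SmallNecks

open Pool.Agent.Helper885.ExRef

/-- Surjective span zero implies span zero for every tree-like continuum that can be cut into
arbitrarily small pieces at small necks. -/
theorem result :
    ∀ (X : Type) [MetricSpace X] [CompactSpace X] [ConnectedSpace X],
      (∀ ε : ℝ, 0 < ε → ∃ n : ℕ, ∃ U : Fin n → Set X,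
        (∀ i, IsOpen (U i)) ∧ (∀ i, (U i).Nonempty) ∧
        (∀ i, Metric.diam (U i) < ε) ∧ (⋃ i, U i) = Set.univ ∧
        (∀ i j k, i ≠ j → j ≠ k → i ≠ k → U i ∩ U j ∩ U k = ∅) ∧
        (SimpleGraph.fromRel (fun i j : Fin n => (U i ∩ U j).Nonempty)).IsTree) →
      SmallNecks X →
      (∀ C : Set (X × X), IsConnected C →
          Prod.fst '' C = Set.univ → Prod.snd '' C = Set.univ →
          ∀ ε : ℝ, 0 < ε → ∃ p ∈ C, dist p.1 p.2 < ε) →
      (∀ C : Set (X × X), IsConnected C →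
          Prod.fst '' C = Prod.snd '' C →
          ∀ ε : ℝ, 0 < ε → ∃ p ∈ C, dist p.1 p.2 < ε) := by
  intro X _ _ _ htree hcut h C hC hpr ε hε
  have htree' : ∀ ε : ℝ, 0 < ε → ∃ n : ℕ, ∃ U : Fin n → Set X,
      (∀ i, IsOpen (U i)) ∧ (∀ i, (U i).Nonempty) ∧ (∀ i, ∀ x ∈ U i, ∀ y ∈ U i, dist x y < ε) ∧
      (⋃ i, U i) = Set.univ ∧
      (SimpleGraph.fromRel (fun i j : Fin n => (U i ∩ U j).Nonempty)).IsAcyclic := by
    intro ε hε
    obtain ⟨n, U, h1, h2, h3, h4, _, h6⟩ := htree ε hε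
    refine ⟨n, U, h1, h2, ?_, h4, h6.isAcyclic⟩
    intro i x hx y hy
    exact (Metric.dist_le_diam_of_mem
      ((isCompact_univ (X := X)).isBounded.subset (Set.subset_univ _)) hx hy).trans_lt (h3 i)
  have hD : ∀ (A B : X) (K : Set (X × X)), IsCompact K → IsConnected K → (A, B) ∈ K →
      (B, A) ∈ K → ∃ x : X, (x, x) ∈ K := by
    intro A B K hK hKc hAB hBA
    have h1 := fun (δ : ℝ) (hδ : 0 < δ) => Pool.Agent.Helper879.SS.main
      (fun C hC h1 h2 ε hε => h C hC h1 h2 ε hε) K hKc.isPreconnected A B hAB hBA δ hδ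
    obtain ⟨q, hq, hmin⟩ := hK.exists_isMinOn ⟨_, hAB⟩ (continuous_dist (α := X)).continuousOn
    have hq0 : q.1 = q.2 := by
      by_contra hne
      obtain ⟨r, hr, hr'⟩ := h1 (dist q.1 q.2) (dist_pos.2 hne)
      exact absurd (isMinOn_iff.1 hmin r hr) (not_le.2 hr')
    refine ⟨q.1, ?_⟩
    have : q = (q.1, q.1) := Prod.ext rfl hq0.symm
    rw [← this]
    exact hq
  have hcl : IsCompact (closure C) := isClosed_closure.isCompact
  have hproj : Prod.snd '' (closure C) ⊆ Prod.fst '' (closure C) := by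
    have hc : IsClosed (Prod.fst '' (closure C)) := (hcl.image continuous_fst).isClosed
    have h1 : Prod.snd '' (closure C) ⊆ closure (Prod.snd '' C) :=
      image_closure_subset_closure_image continuous_snd
    refine h1.trans (closure_minimal ?_ hc)
    rw [← hpr]
    exact Set.image_mono subset_closure
  obtain ⟨x, hx⟩ := neckcut_span htree' hcut hD (closure C) hcl hC.closure hproj
  rw [Metric.mem_closure_iff] at hx
  obtain ⟨p, hp, hpx⟩ := hx (ε / 2) (by linarith)
  refine ⟨p, hp, ?_⟩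
  rw [Prod.dist_eq, max_lt_iff] at hpx
  calc dist p.1 p.2 ≤ dist p.1 x + dist x p.2 := dist_triangle _ _ _
    _ < ε := by
      rw [dist_comm p.1 x]
      linarith [hpx.1, hpx.2]

end Pool.Agent.Results.MP_8493f1_gt.SmallNecks
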