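import Pool.Agent.Helper879.SS.Cont

/-!
Surjective span zero kills every symmetric witness of positive span: a connected set in the square
which contains a pair and its transpose comes arbitrarily close to the diagonal. In particular a
continuum with surjective span zero is atriodic and hereditarily unicoherent.
-/

set_option autoImplicit false

namespace Pool.Agent.Results.MP_8493f1_gt.SymmetricSpan

open Set

/-- `X` has surjective span zero: every connected subset of the square with both projections onto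
`X` contains pairs at arbitrarily small distance. -/
def SurjSpanZero (X : Type) [MetricSpace X] : Prop :=
  ∀ C : Set (X × X), IsConnected C → Prod.fst '' C = univ → Prod.snd '' C = univ →
    ∀ ε : ℝ, 0 < ε → ∃ p ∈ C, dist p.1 p.2 < ε

/-- `N` is a subcontinuum: nonempty, closed and connected. -/
def Subcontinuum {X : Type} [MetricSpace X] (N : Set X) : Prop := IsClosed N ∧ IsConnected N

theorem ctm_iff {α : Type*} [TopologicalSpace α] [CompactSpace α] [T2Space α] {A : Set α} :
    Pool.Agent.Helper879.V.CT.Ctm A ↔ IsClosed A ∧ IsConnected A :=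
  ⟨fun h => ⟨h.1.isClosed, h.2⟩, fun h => ⟨h.1.isCompact, h.2⟩⟩

/-- a compact set with arbitrarily close pairs meets the diagonal -/
theorem diag_of_close {X : Type} [MetricSpace X] {C : Set (X × X)} (hC : IsCompact C)
    (h : ∀ ε : ℝ, 0 < ε → ∃ p ∈ C, dist p.1 p.2 < ε) : ∃ p ∈ C, p.1 = p.2 := by
  obtain ⟨p, hp, -⟩ := h 1 one_pos
  obtain ⟨q, hq, hmin⟩ := hC.exists_isMinOn ⟨p, hp⟩
    (continuous_dist (α := X)).continuousOn
  refine ⟨q, hq, ?_⟩
  by_contra hne
  obtain ⟨r, hr, hr'⟩ := h (dist q.1 q.2) (dist_pos.2 hne)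
  exact absurd (isMinOn_iff.1 hmin r hr) (not_le.2 hr')

theorem result {X : Type} [MetricSpace X] [CompactSpace X] [ConnectedSpace X]
    (h : SurjSpanZero X) :
    (∀ C : Set (X × X), IsConnected C → (∃ x y : X, (x, y) ∈ C ∧ (y, x) ∈ C) →
      ∀ ε : ℝ, 0 < ε → ∃ p ∈ C, dist p.1 p.2 < ε) ∧
    (∀ A B D : Set X, Subcontinuum A → Subcontinuum B → Subcontinuum D →
      (A ∩ B).Nonempty → (B ∩ D).Nonempty → (A ∩ D).Nonempty →
      A ⊆ B ∪ D ∨ B ⊆ A ∪ D ∨ D ⊆ A ∪ B) ∧
    (∀ A B : Set X, Subcontinuum A → Subcontinuum B → IsPreconnected (A ∩ B)) := by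
  have hsym : ∀ C : Set (X × X), IsPreconnected C → ∀ x y : X, (x, y) ∈ C → (y, x) ∈ C →
      ∀ ε : ℝ, 0 < ε → ∃ p ∈ C, dist p.1 p.2 < ε := fun C hC x y hxy hyx ε hε =>
    Pool.Agent.Helper879.SS.main (fun C hC h1 h2 ε hε => h C hC h1 h2 ε hε) C hC x y hxy hyx ε hε
  have hM : Pool.Agent.Helper879.SS.SymZ X := fun C hC x y hxy hyx =>
    diag_of_close hC.1 (hsym C hC.2.isPreconnected x y hxy hyx)
  refine ⟨?_, ?_, ?_⟩
  · rintro C hC ⟨x, y, hxy, hyx⟩
    exact hsym C hC.isPreconnected x y hxy hyx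
  · intro A B D hA hB hD hAB hBD hAD
    exact Pool.Agent.Helper879.SS.tri hM (ctm_iff.2 hA) (ctm_iff.2 hB) (ctm_iff.2 hD) hAB hBD hAD
  · intro A B hA hB
    exact Pool.Agent.Helper879.SS.uni hM (ctm_iff.2 hA) (ctm_iff.2 hB)

end Pool.Agent.Results.MP_8493f1_gt.SymmetricSpan
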